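import Pool.Agent.MP_fcbc3e_an.Main

/-!
For every `d ≥ 3` and for `𝕜 = ℝ` or `ℂ` there are a nonempty open set `Ω ⊆ ℝ^d` and smooth
`w : Ω → 𝕜`, `ψ : Ω → Ω` such that the weighted composition operator `C_{w,ψ}` is supercyclic on
`C^∞(Ω, 𝕜)` but not chaotic.

Example: `Ω = {x : (x₀, x₁) ≠ 0}`, `w = 1` and
`ψ(x₀, x₁, x₂, x₃, ...) = (2 x₀, x₁ / 2, x₂ + s(x₀, x₁), x₃, ...)`.
The map `(x₀, x₁) ↦ (2 x₀, x₁ / 2)` is a saddle; an orbit passing from near `(0, 1)` to near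
`(1, 0)` in `n` steps has `x₀ x₁ ≈ 2^{-n}`, and its `x₂`-coordinate is shifted altogether by
`G(-log₂ |x₀ x₁|)`, where `G` vanishes at the factorials `k!` but is large on arbitrarily long
intervals.  Hence `ψ` is run-away, so that `C_{1,ψ}` is even hypercyclic, but there are
`z_k → P` with `ψ^{k!}(z_k) → Q`, `P ≠ Q`, which forces `g(P) = g(Q)` for every periodic point `g`.
-/

open Set Filter Topology TopologicalSpace
open scoped ContDiff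

namespace Pool.Agent.Results.MP_fcbc3e_an.SupercyclicNotChaotic

open Pool.Agent.MP_fcbc3e_an

universe u

/-- For every `d ≥ 3` there are a nonempty open set `Ω ⊆ ℝ^d` and smooth `w : Ω → 𝕜`,
`ψ : Ω → Ω` such that `C_{w,ψ}` is supercyclic but not chaotic on `C^∞(Ω, 𝕜)`. -/
theorem result (𝕜 : Type u) [RCLike 𝕜] (d : ℕ) (hd : 3 ≤ d) :
    ExistsSupercyclicNotChaotic 𝕜 (EuclideanSpace ℝ (Fin d)) := by
  have h01 : (⟨0, by omega⟩ : Fin d) ≠ ⟨1, by omega⟩ := by simp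
  have h02 : (⟨0, by omega⟩ : Fin d) ≠ ⟨2, by omega⟩ := by simp
  have h12 : (⟨1, by omega⟩ : Fin d) ≠ ⟨2, by omega⟩ := by simp
  generalize (⟨0, by omega⟩ : Fin d) = i₀ at *
  generalize (⟨1, by omega⟩ : Fin d) = i₁ at *
  generalize (⟨2, by omega⟩ : Fin d) = i₂ at *
  have hw : ContDiffOn ℝ ∞ (fun _ => (1 : 𝕜)) (Om i₀ i₁ : Set (Rd d)) := contDiffOn_const
  have h0 : PP i₁ 0 1 i₀ ∈ Om i₀ i₁ := by right; simp [PP, h01.symm]
  have h1 : PP i₁ 1 0 i₀ ∈ Om i₀ i₁ := by left; simp [PP]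
  refine ⟨Om i₀ i₁, fun _ => 1, psi i₀ i₁ i₂, hw, psi_contDiffOn, psi_maps h01, ⟨_, h0⟩, ?_, ?_⟩
  · obtain ⟨g, hg⟩ := exists_dense_orbit (𝕜 := 𝕜) hw psi_contDiffOn psi'_contDiffOn
      (psi_maps h01) (psi'_maps h01) (fun x _ => psi'_psi h01 h02 h12 x)
      (fun x _ => psi_psi' h01 h02 h12 x) (psi_runAway h01 h02 h12)
    refine ⟨g, hg.mono ?_⟩
    rintro _ ⟨n, rfl⟩
    exact ⟨1, n, by rw [one_smul]⟩
  · rintro ⟨_, hper⟩
    obtain ⟨f, hf⟩ := exists_separating (𝕜 := 𝕜) h01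
    have hopen : IsOpen {g : SmoothFun 𝕜 (Om i₀ i₁) | g (PP i₁ 0 1 i₀) ≠ g (PP i₁ 1 0 i₀)} :=
      isOpen_ne_fun (SmoothFun.continuous_eval h0) (SmoothFun.continuous_eval h1)
    obtain ⟨g, hg1, p, hp, hg2⟩ := hper.inter_open_nonempty _ hopen ⟨f, hf⟩
    exact hg1 (periodic_eval_eq h01 h02 h12 hw g p hp hg2)

end Pool.Agent.Results.MP_fcbc3e_an.SupercyclicNotChaotic
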